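import Mathlib

open AddMonoidAlgebra
open scoped AddMonoidAlgebra

set_option autoImplicit false

namespace Pool.Agent.Results.MP_58a9d8_ag.CancellativeIffTerm

universe u1 u2 u3

/-- Coefficientwise application of `v` to a Laurent polynomial (or element of a monoid ring):
`trop (∑ c_u χ^u) = ∑ v (c_u) χ^u`. -/
noncomputable def trop {K : Type u1} {S : Type u2} {M : Type u3} [Field K] [Semifield S]
    (v : K →*₀ S) (F : AddMonoidAlgebra K M) : AddMonoidAlgebra S M :=
  AddMonoidAlgebra.ofCoeff (F.coeff.mapRange v (map_zero v))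

/-- The bend relations `φ ∼ φ with the term at u₀ deleted`, for `φ ∈ J` and `u₀` in the support
of `φ`. -/
def BendRel {S : Type u2} {M : Type u3} [Semifield S] [AddCommMonoid M]
    (J : Set (AddMonoidAlgebra S M)) (a b : AddMonoidAlgebra S M) : Prop :=
  ∃ φ ∈ J, ∃ u₀ ∈ φ.coeff.support, a = φ ∧ b = φ.erase u₀

/-- The smallest semiring congruence containing the bend relations of all elements of `J`. -/
noncomputable def Bend {S : Type u2} {M : Type u3} [Semifield S] [AddCommMonoid M]
    (J : Set (AddMonoidAlgebra S M)) : RingCon (AddMonoidAlgebra S M) :=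
  ringConGen (BendRel J)

/-- The quotient semiring `A = S[M] / Bend (trop I)`. -/
def TropQuotient {K : Type u1} {S : Type u2} {M : Type u3} [Field K] [Semifield S]
    [AddCommMonoid M] (v : K →*₀ S) (I : Ideal (AddMonoidAlgebra K M)) : Type (max u2 u3) :=
  (Bend (trop v '' (I : Set (AddMonoidAlgebra K M)))).Quotient

/-- `A` is a commutative semiring (as a quotient of `S[M]` by a congruence). -/
noncomputable instance {K : Type u1} {S : Type u2} {M : Type u3} [Field K] [Semifield S]
    [AddCommMonoid M] (v : K →*₀ S) (I : Ideal (AddMonoidAlgebra K M)) :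
    CommSemiring (TropQuotient v I) :=
  inferInstanceAs (CommSemiring (Bend (trop v '' (I : Set (AddMonoidAlgebra K M)))).Quotient)

/-- The class in `A` of an element of `S[M]`. -/
noncomputable def TropQuotient.mk {K : Type u1} {S : Type u2} {M : Type u3} [Field K] [Semifield S]
    [AddCommMonoid M] (v : K →*₀ S) (I : Ideal (AddMonoidAlgebra K M))
    (g : AddMonoidAlgebra S M) : TropQuotient v I :=
  (g : (Bend (trop v '' (I : Set (AddMonoidAlgebra K M)))).Quotient)

/-- `x` is cancellative: `x g = x h` implies `g = h`. -/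
def IsCancellative {A : Type*} [CommSemiring A] (x : A) : Prop :=
  ∀ g h : A, x * g = x * h → g = h

/-- `x ∈ A` is the class of a term `a χ^u`, `a ≠ 0`. -/
def IsTermClass {K : Type u1} {S : Type u2} {M : Type u3} [Field K] [Semifield S]
    [AddCommMonoid M] (v : K →*₀ S) (I : Ideal (AddMonoidAlgebra K M))
    (x : TropQuotient v I) : Prop :=
  ∃ (u : M) (a : S), a ≠ 0 ∧ x = TropQuotient.mk v I (single u a)

/-- `I` contains no monomial `c χ^u`, `c ≠ 0`. -/
def NoMonomial {K : Type u1} {M : Type u3} [Field K] [AddCommMonoid M]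
    (I : Ideal (AddMonoidAlgebra K M)) : Prop :=
  ∀ (c : K) (u : M), c ≠ 0 → single u c ∉ I

/-- `I` contains no binomial `c χ^u + c' χ^u'`, `c, c' ≠ 0`, `u ≠ u'`. -/
def NoBinomial {K : Type u1} {M : Type u3} [Field K] [AddCommMonoid M]
    (I : Ideal (AddMonoidAlgebra K M)) : Prop :=
  ∀ (c c' : K) (u u' : M), c ≠ 0 → c' ≠ 0 → u ≠ u' → single u c + single u' c' ∉ I

section semifield

variable {S : Type u2} [Semifield S] [LinearOrder S] (hmax : ∀ a b : S, a + b = max a b)

include hmax

lemma le_iff_add (a b : S) : a ≤ b ↔ a + b = b := by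
  rw [hmax]; exact max_eq_right_iff.symm

lemma S_zero_le (a : S) : 0 ≤ a := by
  rw [le_iff_add hmax, zero_add]

lemma S_mul_le {a b : S} (c : S) (h : a ≤ b) : c * a ≤ c * b := by
  rw [le_iff_add hmax] at h ⊢
  rw [← mul_add, h]

lemma S_mul_le_mul {a b c d : S} (h : a ≤ b) (h' : c ≤ d) : a * c ≤ b * d := by
  refine (S_mul_le hmax a h').trans ?_
  rw [mul_comm a, mul_comm b]
  exact S_mul_le hmax d h

lemma S_mul_le_iff {a b c : S} (hc : c ≠ 0) : c * a ≤ c * b ↔ a ≤ b := by
  refine ⟨fun h => ?_, S_mul_le hmax c⟩
  have := S_mul_le hmax c⁻¹ h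
  rwa [inv_mul_cancel_left₀ hc, inv_mul_cancel_left₀ hc] at this

lemma S_eq_zero_of_le {a : S} (h : a ≤ 0) : a = 0 := le_antisymm h (S_zero_le hmax a)

lemma S_sq_one {a : S} (h : a * a = 1) : a = 1 := by
  have ha : a ≠ 0 := by rintro rfl; simp at h
  rcases le_total a 1 with h1 | h1
  · have h2 := S_mul_le hmax a h1
    rw [h, mul_one] at h2
    exact le_antisymm h1 h2
  · have h2 := S_mul_le hmax a h1
    rw [h, mul_one] at h2
    exact le_antisymm h2 h1

variable {K : Type u1} [Field K] (v : K →*₀ S)

lemma v_neg (a : K) : v (-a) = v a := by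
  have h1 : v (-1) = 1 := by
    apply S_sq_one hmax
    rw [← map_mul]; simp
  rw [← neg_one_mul, map_mul, h1, one_mul]

lemma v_zero_of_le {σ : S} (hσ : σ ≠ 0) {c : K} (h : σ * v c ≤ 0) : c = 0 := by
  have := S_eq_zero_of_le hmax h
  rcases mul_eq_zero.1 this with h | h
  · exact absurd h hσ
  · exact (map_eq_zero v).1 h

end semifield

section abstract_part

variable {S : Type u2} [Semifield S] [LinearOrder S] (hmax : ∀ a b : S, a + b = max a b)
variable {K : Type u1} [Field K] (v : K →*₀ S)
variable {M : Type u3} [AddCommMonoid M]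
variable {R : Type*} [CommRing R] (C : K →+* R) (X : M → R)

/-- The subgroup of `R` generated by all `C c * X u` with `σ * v c ≤ g_u`. -/
def N (σ : S) (g : AddMonoidAlgebra S M) : AddSubgroup R :=
  AddSubgroup.closure {x | ∃ u c, σ * v c ≤ g.coeff u ∧ x = C c * X u}

lemma N_gen {σ : S} {g : AddMonoidAlgebra S M} {u : M} {c : K} (h : σ * v c ≤ g.coeff u) :
    C c * X u ∈ N v C X σ g :=
  AddSubgroup.subset_closure ⟨u, c, h, rfl⟩

lemma N_le {σ : S} {g : AddMonoidAlgebra S M} {H : AddSubgroup R}
    (h : ∀ u c, σ * v c ≤ g.coeff u → C c * X u ∈ H) : N v C X σ g ≤ H := by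
  unfold N
  rw [AddSubgroup.closure_le]
  rintro _ ⟨u, c, h1, rfl⟩
  exact h u c h1

include hmax in
lemma N_zero {σ : S} (hσ : σ ≠ 0) : N v C X σ (0 : AddMonoidAlgebra S M) = ⊥ := by
  rw [eq_bot_iff]
  apply N_le
  intro u c h
  have : c = 0 := v_zero_of_le hmax v hσ (by simpa using h)
  subst this
  simp

include hmax in
lemma N_add (σ : S) (g h : AddMonoidAlgebra S M) :
    N v C X σ (g + h) = N v C X σ g ⊔ N v C X σ h := by
  apply le_antisymm
  · apply N_le
    intro u c hc
    rw [coeff_add, Finsupp.add_apply, hmax, le_max_iff] at hc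
    rcases hc with hc | hc
    · exact (le_sup_left : _ ≤ N v C X σ g ⊔ N v C X σ h) (N_gen v C X hc)
    · exact (le_sup_right : _ ≤ N v C X σ g ⊔ N v C X σ h) (N_gen v C X hc)
  · apply sup_le
    · apply N_le
      intro u c hc
      apply N_gen
      rw [coeff_add, Finsupp.add_apply, hmax]
      exact le_max_of_le_left hc
    · apply N_le
      intro u c hc
      apply N_gen
      rw [coeff_add, Finsupp.add_apply, hmax]
      exact le_max_of_le_right hc

variable (hv : ∀ a b, v (a + b) ≤ v a + v b)

include hmax hv in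
lemma N_single {σ : S} (hσ : σ ≠ 0) (u : M) (s : S) (x : R) :
    x ∈ N v C X σ (single u s) ↔ ∃ c, σ * v c ≤ s ∧ x = C c * X u := by
  constructor
  · intro hx
    have : N v C X σ (single u s) ≤
        { carrier := {x | ∃ c, σ * v c ≤ s ∧ x = C c * X u}
          zero_mem' := ⟨0, by simp [S_zero_le hmax], by simp⟩
          add_mem' := by
            rintro _ _ ⟨c, hc, rfl⟩ ⟨d, hd, rfl⟩
            refine ⟨c + d, ?_, by rw [map_add, add_mul]⟩
            have h1 := hv c d
            rw [hmax] at h1
            refine (S_mul_le hmax σ h1).trans ?_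
            rcases le_total (v c) (v d) with h2 | h2
            · rwa [max_eq_right h2]
            · rwa [max_eq_left h2]
          neg_mem' := by
            rintro _ ⟨c, hc, rfl⟩
            exact ⟨-c, by rwa [v_neg hmax], by rw [map_neg, neg_mul]⟩ : AddSubgroup R } := by
      apply N_le
      intro u' c hc
      classical
      by_cases huu : u' = u
      · subst huu
        exact ⟨c, by simpa using hc, rfl⟩
      · have h0 : (single u s : AddMonoidAlgebra S M).coeff u' = 0 := by
          rw [coeff_single, Finsupp.single_apply, if_neg (Ne.symm huu)]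
        rw [h0] at hc
        have : c = 0 := v_zero_of_le hmax v hσ hc
        subst this
        exact ⟨0, by simp [S_zero_le hmax], by simp⟩
    exact this hx
  · rintro ⟨c, hc, rfl⟩
    apply N_gen
    simpa using hc

variable (hX0 : X 0 = 1) (hXadd : ∀ a b, X (a + b) = X a * X b)

include hmax hv hXadd in
lemma N_mul_single {σ : S} (hσ : σ ≠ 0) (g : AddMonoidAlgebra S M) (u : M) {s : S} (hs : s ≠ 0) :
    N v C X σ (g * single u s) =
      (N v C X (σ * s⁻¹) g).map (AddMonoidHom.mulLeft (X u)) := by
  induction g using AddMonoidAlgebra.induction_linear with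
  | zero =>
    rw [zero_mul, N_zero hmax v C X hσ, N_zero hmax v C X (mul_ne_zero hσ (inv_ne_zero hs)),
      AddSubgroup.map_bot]
  | add g h hg hh =>
    rw [add_mul, N_add hmax, N_add hmax, AddSubgroup.map_sup, hg, hh]
  | single u' s' =>
    rw [single_mul_single]
    ext x
    rw [N_single hmax v C X hv hσ, AddSubgroup.mem_map]
    constructor
    · rintro ⟨c, hc, rfl⟩
      refine ⟨C c * X u', ?_, ?_⟩
      · rw [N_single hmax v C X hv (mul_ne_zero hσ (inv_ne_zero hs))]
        refine ⟨c, ?_, rfl⟩
        rw [← S_mul_le_iff hmax hs]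
        calc s * (σ * s⁻¹ * v c) = σ * v c := by field_simp
          _ ≤ s' * s := hc
          _ = s * s' := mul_comm _ _
      · rw [AddMonoidHom.coe_mulLeft, hXadd]; ring
    · rintro ⟨y, hy, rfl⟩
      rw [N_single hmax v C X hv (mul_ne_zero hσ (inv_ne_zero hs))] at hy
      obtain ⟨c, hc, rfl⟩ := hy
      refine ⟨c, ?_, ?_⟩
      · rw [← S_mul_le_iff hmax hs] at hc
        calc σ * v c = s * (σ * s⁻¹ * v c) := by field_simp
          _ ≤ s * s' := hc
          _ = s' * s := mul_comm _ _
      · rw [AddMonoidHom.coe_mulLeft, hXadd]; ring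

include hmax in
lemma N_scale {σ s : S} {c : K} (h : σ * v c ≤ s) {g : AddMonoidAlgebra S M} {x : R}
    (hx : x ∈ N v C X s g) : C c * x ∈ N v C X σ g := by
  have : N v C X s g ≤ (N v C X σ g).comap (AddMonoidHom.mulLeft (C c)) := by
    apply N_le
    intro u d hd
    rw [AddSubgroup.mem_comap, AddMonoidHom.coe_mulLeft, ← mul_assoc, ← map_mul]
    apply N_gen
    refine le_trans ?_ hd
    rw [map_mul, ← mul_assoc, mul_comm _ (v d), mul_comm s]
    exact S_mul_le hmax (v d) h
  exact this hx

include hmax in
lemma N_anti {σ s : S} (h : σ ≤ s) {g : AddMonoidAlgebra S M} {x : R}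
    (hx : x ∈ N v C X s g) : x ∈ N v C X σ g := by
  have := N_scale hmax v C X (c := 1) (by simpa using h) hx
  simpa using this

include hmax in
/-- If `X m ∈ N t k` then every `C c * X m` with `σ * v c ≤ t` lies in `N σ k`. -/
lemma N_le_of {σ : S} (hσ : σ ≠ 0) {h k : AddMonoidAlgebra S M}
    (H : ∀ m, h.coeff m ≠ 0 → X m ∈ N v C X (h.coeff m) k) : N v C X σ h ≤ N v C X σ k := by
  apply N_le
  intro u c hc
  by_cases h0 : h.coeff u = 0
  · rw [h0] at hc
    have : c = 0 := v_zero_of_le hmax v hσ hc
    subst this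
    simp
  · exact N_scale hmax v C X hc (H u h0)

/-- The relation `∀ σ ≠ 0, N σ g = N σ h`. -/
def RelP (g h : AddMonoidAlgebra S M) : Prop :=
  ∀ σ : S, σ ≠ 0 → N v C X σ g = N v C X σ h

lemma RelP.rfl' (g : AddMonoidAlgebra S M) : RelP v C X g g := fun _ _ => rfl

variable {v C X} in
lemma RelP.symm {g h : AddMonoidAlgebra S M} (H : RelP v C X g h) : RelP v C X h g :=
  fun σ hσ => (H σ hσ).symm

variable {v C X} in
lemma RelP.trans {g h k : AddMonoidAlgebra S M} (H : RelP v C X g h) (H' : RelP v C X h k) :
    RelP v C X g k :=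
  fun σ hσ => (H σ hσ).trans (H' σ hσ)

include hmax in
lemma RelP.add {g h g' h' : AddMonoidAlgebra S M} (H : RelP v C X g h) (H' : RelP v C X g' h') :
    RelP v C X (g + g') (h + h') := by
  intro σ hσ
  rw [N_add hmax, N_add hmax, H σ hσ, H' σ hσ]

include hmax hv hXadd in
lemma RelP.mul_right {g h : AddMonoidAlgebra S M} (H : RelP v C X g h)
    (k : AddMonoidAlgebra S M) : RelP v C X (g * k) (h * k) := by
  induction k using AddMonoidAlgebra.induction_linear with
  | zero => rw [mul_zero, mul_zero]; exact RelP.rfl' v C X 0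
  | add k l hk hl => rw [mul_add, mul_add]; exact RelP.add hmax v C X hk hl
  | single u s =>
    intro σ hσ
    by_cases hs : s = 0
    · subst hs; simp
    · rw [N_mul_single hmax v C X hv hXadd hσ _ _ hs, N_mul_single hmax v C X hv hXadd hσ _ _ hs,
        H _ (mul_ne_zero hσ (inv_ne_zero hs))]

include hmax hv hXadd in
lemma RelP.mul {g h g' h' : AddMonoidAlgebra S M} (H : RelP v C X g h) (H' : RelP v C X g' h') :
    RelP v C X (g * g') (h * h') := by
  refine (RelP.mul_right hmax v C X hv hXadd H g').trans ?_
  rw [mul_comm h, mul_comm h]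
  exact RelP.mul_right hmax v C X hv hXadd H' h

include hmax in
lemma RelP.of_le {g h : AddMonoidAlgebra S M}
    (H : ∀ σ : S, σ ≠ 0 → N v C X σ h ≤ N v C X σ g) : RelP v C X (g + h) g := by
  intro σ hσ
  rw [N_add hmax]
  exact sup_eq_left.2 (H σ hσ)

include hmax in
lemma RelP.le_of {g h : AddMonoidAlgebra S M} (H : RelP v C X (g + h) g) {σ : S} (hσ : σ ≠ 0) :
    N v C X σ h ≤ N v C X σ g := by
  have := H σ hσ
  rw [N_add hmax] at this
  exact sup_eq_left.1 this

/-- Cancellativity of (the class of) `g` modulo `RelP`. -/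
def Canc (g : AddMonoidAlgebra S M) : Prop :=
  ∀ a b : AddMonoidAlgebra S M, RelP v C X (g * a) (g * b) → RelP v C X a b

include hmax hv hXadd in
lemma Canc.congr {g h : AddMonoidAlgebra S M} (H : RelP v C X g h) (hg : Canc v C X g) :
    Canc v C X h := by
  intro a b hab
  apply hg
  exact ((RelP.mul_right hmax v C X hv hXadd H a).trans hab).trans
    (RelP.mul_right hmax v C X hv hXadd H.symm b)

/-- `G p q`: `X p = X q * x` for some `x` in `⋃_{s ≠ 0} N s g`. -/
def G (g : AddMonoidAlgebra S M) (p q : M) : Prop :=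
  ∃ x : R, (∃ s : S, s ≠ 0 ∧ x ∈ N v C X s g) ∧ X p = X q * x

lemma exists_ne_le {ι : Type*} (T : Finset ι) (f : ι → S) (hf : ∀ i ∈ T, f i ≠ 0) :
    ∃ s : S, s ≠ 0 ∧ ∀ i ∈ T, s ≤ f i := by
  classical
  induction T using Finset.induction_on with
  | empty => exact ⟨1, one_ne_zero, by simp⟩
  | insert a T ha ih =>
    obtain ⟨s, hs, hs'⟩ := ih (fun i hi => hf i (Finset.mem_insert_of_mem hi))
    refine ⟨min s (f a), ?_, ?_⟩
    · rcases min_choice s (f a) with h | h
      · rw [h]; exact hs
      · rw [h]; exact hf a (Finset.mem_insert_self _ _)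
    · intro i hi
      rcases Finset.mem_insert.1 hi with rfl | hi
      · exact min_le_right _ _
      · exact (min_le_left _ _).trans (hs' i hi)

variable [IsDomain R] (hXne : ∀ u, X u ≠ 0)

include hmax hv hXadd hXne in
lemma G_step {g : AddMonoidAlgebra S M} (hg : Canc v C X g)
    (hirr : ∀ b ∈ g.coeff.support, X b ∉ N v C X (g.coeff b) (g.erase b))
    {p q b : M} (hb : b ∈ g.coeff.support) (hG : G v C X g p q) :
    G v C X g (b + b + q) p := by
  obtain ⟨x, ⟨s, hs, hx⟩, hpq⟩ := hG
  set β : S := g.coeff b with hβ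
  have hβ0 : β ≠ 0 := Finsupp.mem_support_iff.1 hb
  set N' : AddMonoidAlgebra S M := single p β⁻¹ * g.erase b + single (b + b + q) (β * s⁻¹) with hN'
  -- the key relation
  have key : RelP v C X (g * (N' + single (b + p) 1)) (g * N') := by
    rw [mul_add]
    apply RelP.of_le hmax
    intro σ hσ
    have e1 : g * single (b + p) 1 =
        g.erase b * single (b + p) 1 + single (b + b + p) β := by
      conv_lhs => rw [← erase_add_single b g]
      rw [add_mul, single_mul_single, mul_one, ← add_assoc]
    have e2 : g * N' = (g.erase b * single (b + p) 1 + g.erase b * (single p β⁻¹ * g.erase b))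
        + g * single (b + b + q) (β * s⁻¹) := by
      rw [hN', mul_add]
      congr 1
      conv_lhs => rw [← erase_add_single b g]
      rw [add_mul, erase_add_single, add_comm]
      congr 1
      rw [← mul_assoc, single_mul_single, ← hβ, mul_inv_cancel₀ hβ0, mul_comm]
    rw [e1, e2, N_add hmax, N_add hmax, N_add hmax]
    apply sup_le
    · exact le_trans le_sup_left le_sup_left
    · refine le_trans ?_ le_sup_right
      intro y hy
      rw [N_single hmax v C X hv hσ] at hy
      obtain ⟨c, hc, rfl⟩ := hy
      rw [N_mul_single hmax v C X hv hXadd hσ _ _ (mul_ne_zero hβ0 (inv_ne_zero hs)),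
        AddSubgroup.mem_map]
      refine ⟨C c * x, ?_, ?_⟩
      · apply N_scale hmax v C X _ hx
        rw [← S_mul_le_iff hmax hβ0, ← S_mul_le_iff hmax (inv_ne_zero hs)]
        calc s⁻¹ * (β * (σ * (β * s⁻¹)⁻¹ * v c)) = σ * v c := by field_simp
          _ ≤ β := hc
          _ = s⁻¹ * (β * s) := by field_simp
      · rw [AddMonoidHom.coe_mulLeft, hXadd, hXadd (b + b) p, hpq]; ring
  have h1 : RelP v C X (N' + single (b + p) 1) N' := hg _ _ key
  have h2 : X (b + p) ∈ N v C X 1 N' := by
    have := RelP.le_of hmax v C X h1 (one_ne_zero)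
    apply this
    rw [N_single hmax v C X hv one_ne_zero]
    exact ⟨1, by simp, by simp⟩
  rw [hN', N_add hmax, AddSubgroup.mem_sup] at h2
  obtain ⟨y, hy, z, hz, hyz⟩ := h2
  rw [mul_comm, N_mul_single hmax v C X hv hXadd one_ne_zero _ _ (inv_ne_zero hβ0),
    AddSubgroup.mem_map] at hy
  rw [N_single hmax v C X hv one_ne_zero] at hz
  obtain ⟨y, hy, rfl⟩ := hy
  obtain ⟨c, hc, rfl⟩ := hz
  rw [AddMonoidHom.coe_mulLeft, hXadd b p] at hyz
  rw [one_mul, inv_inv] at hy
  have hc0 : c ≠ 0 := by
    rintro rfl
    apply hirr b hb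
    rw [map_zero, zero_mul, add_zero, mul_comm (X b)] at hyz
    rw [← mul_left_cancel₀ (hXne p) hyz]
    exact hy
  -- `X (b+b+q) = X p * (C c⁻¹ * (X b - y))`
  have hCc : C c⁻¹ * C c = 1 := by rw [← map_mul, inv_mul_cancel₀ hc0, map_one]
  have hvc : v c ≠ 0 := by rwa [Ne, map_eq_zero]
  refine ⟨C c⁻¹ * (X b - y), ⟨β * v c, mul_ne_zero hβ0 hvc, ?_⟩, ?_⟩
  · apply N_scale hmax v C X (s := β)
    · rw [mul_assoc, ← map_mul, mul_inv_cancel₀ hc0, map_one, mul_one]
    · apply AddSubgroup.sub_mem
      · have := N_gen v C X (σ := β) (g := g) (u := b) (c := 1) (by simp [hβ])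
        simpa using this
      · have h3 : N v C X β (g.erase b) ≤ N v C X β g := by
          conv_rhs => rw [← erase_add_single b g]
          rw [N_add hmax]
          exact le_sup_left
        exact h3 hy
  · calc X (b + b + q) = (C c⁻¹ * C c) * X (b + b + q) := by rw [hCc, one_mul]
      _ = C c⁻¹ * (X b * X p - X p * y) := by rw [← hyz]; ring
      _ = _ := by ring

include hmax hv hXadd hXne in
lemma canc_single (u : M) {a : S} (ha : a ≠ 0) : Canc v C X (single u a) := by
  intro x y h σ hσ
  have := h (σ * a) (mul_ne_zero hσ ha)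
  rw [mul_comm (single u a) x, mul_comm (single u a) y,
    N_mul_single hmax v C X hv hXadd (mul_ne_zero hσ ha) _ _ ha,
    N_mul_single hmax v C X hv hXadd (mul_ne_zero hσ ha) _ _ ha, mul_assoc,
    mul_inv_cancel₀ ha, mul_one] at this
  refine AddSubgroup.map_injective ?_ this
  intro p q hpq
  exact mul_left_cancel₀ (hXne u) hpq

include hmax hv hX0 hXadd hXne in
theorem main_abs (hM : ∀ a b : M, a + a = b + b → a = b)
    (hbin : ∀ (u u' : M) (c : K), u ≠ u' → X u ≠ C c * X u')
    {g0 : AddMonoidAlgebra S M} (hg0 : Canc v C X g0) :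
    ∃ u a, a ≠ 0 ∧ RelP v C X g0 (single u a) := by
  classical
  have hex : ∃ n, ∃ g : AddMonoidAlgebra S M, RelP v C X g0 g ∧ g.coeff.support.card = n :=
    ⟨_, g0, RelP.rfl' v C X g0, rfl⟩
  obtain ⟨g, hgg, hcard⟩ := Nat.find_spec hex
  have hmin : ∀ h : AddMonoidAlgebra S M, RelP v C X g0 h →
      g.coeff.support.card ≤ h.coeff.support.card := by
    intro h hh
    rw [hcard]
    exact Nat.find_min' hex ⟨h, hh, rfl⟩
  have hg : Canc v C X g := Canc.congr hmax v C X hv hXadd hgg hg0
  have hirr : ∀ b ∈ g.coeff.support, X b ∉ N v C X (g.coeff b) (g.erase b) := by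
    intro b hb hbN
    have hr : RelP v C X g (g.erase b) := by
      have h1 : RelP v C X (g.erase b + single b (g.coeff b)) (g.erase b) := by
        apply RelP.of_le hmax
        intro σ hσ y hy
        rw [N_single hmax v C X hv hσ] at hy
        obtain ⟨c, hc, rfl⟩ := hy
        exact N_scale hmax v C X hc hbN
      rwa [erase_add_single] at h1
    have h2 := hmin _ (hgg.trans hr)
    rw [coeff_erase, Finsupp.support_erase, Finset.card_erase_of_mem hb] at h2
    have h3 : 0 < g.coeff.support.card := Finset.card_pos.2 ⟨b, hb⟩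
    omega
  -- cases on the cardinality of the support
  rcases Nat.lt_trichotomy g.coeff.support.card 1 with h1 | h1 | h1
  · exfalso
    have h0 : g = 0 := by
      have : g.coeff.support = ∅ := Finset.card_eq_zero.1 (by omega)
      rw [Finsupp.support_eq_empty] at this
      exact coeff_eq_zero.1 this
    subst h0
    have h2 : RelP v C X (single (0 : M) (1 : S)) 0 := by
      apply hg
      rw [zero_mul, zero_mul]
      exact RelP.rfl' v C X 0
    have h3 := h2 1 one_ne_zero
    rw [N_zero hmax v C X one_ne_zero] at h3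
    have h4 : X 0 ∈ N v C X 1 (single (0 : M) (1 : S)) := by
      rw [N_single hmax v C X hv one_ne_zero]
      exact ⟨1, by simp, by simp⟩
    rw [h3, AddSubgroup.mem_bot] at h4
    exact hXne 0 h4
  · obtain ⟨b, hb⟩ := Finset.card_eq_one.1 h1
    have hb' : b ∈ g.coeff.support := by rw [hb]; simp
    refine ⟨b, g.coeff b, Finsupp.mem_support_iff.1 hb', ?_⟩
    have h2 : g = single b (g.coeff b) := by
      conv_lhs => rw [← erase_add_single b g]
      have : g.erase b = 0 := by
        apply coeff_eq_zero.1
        rw [← Finsupp.support_eq_empty, coeff_erase, Finsupp.support_erase, hb]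
        simp
      rw [this, zero_add]
    rw [← h2]
    exact hgg
  · exfalso
    obtain ⟨b, hb, c, hc, hbc⟩ := Finset.one_lt_card.1 h1
    have hG1 : ∀ u ∈ g.coeff.support, G v C X g (b + b + u) (c + c + 0) := by
      intro u hu
      have h2 : G v C X g u 0 := by
        refine ⟨X u, ⟨g.coeff u, Finsupp.mem_support_iff.1 hu, ?_⟩, by rw [hX0, one_mul]⟩
        have := N_gen v C X (σ := g.coeff u) (g := g) (u := u) (c := 1) (by simp)
        simpa using this
      have h3 := G_step hmax v C X hv hXadd hXne hg hirr hc h2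
      exact G_step hmax v C X hv hXadd hXne hg hirr hb h3
    choose! x hx using hG1
    choose! t ht using fun u hu => (hx u hu).1
    obtain ⟨s, hs, hs'⟩ := exists_ne_le g.coeff.support (fun u => t u * (g.coeff u)⁻¹)
      (fun u hu => mul_ne_zero (ht u hu).1 (inv_ne_zero (Finsupp.mem_support_iff.1 hu)))
    have key : RelP v C X (g * (single (c + c) 1 + single (b + b) s)) (g * single (c + c) 1) := by
      rw [mul_add]
      apply RelP.of_le hmax
      intro σ hσ
      rw [N_mul_single hmax v C X hv hXadd hσ _ _ hs,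
        N_mul_single hmax v C X hv hXadd hσ _ _ one_ne_zero, inv_one, mul_one,
        AddSubgroup.map_le_iff_le_comap]
      apply N_le
      intro u d hd
      rw [AddSubgroup.mem_comap, AddMonoidHom.coe_mulLeft, AddSubgroup.mem_map]
      by_cases hu : u ∈ g.coeff.support
      · refine ⟨C d * x u, ?_, ?_⟩
        · apply N_scale hmax v C X _ (ht u hu).2
          have hgu := Finsupp.mem_support_iff.1 hu
          have h5 := hs' u hu
          have h6 := S_mul_le_mul hmax hd h5
          calc σ * v d = σ * s⁻¹ * v d * s := by field_simp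
            _ ≤ g.coeff u * (t u * (g.coeff u)⁻¹) := h6
            _ = t u := by field_simp
        · have h5 := (hx u hu).2
          rw [add_zero, hXadd (b + b) u] at h5
          rw [AddMonoidHom.coe_mulLeft]
          calc X (c + c) * (C d * x u) = C d * (X (c + c) * x u) := by ring
            _ = C d * (X (b + b) * X u) := by rw [h5]
            _ = _ := by ring
      · rw [Finsupp.notMem_support_iff.1 hu] at hd
        have : d = 0 := v_zero_of_le hmax v (mul_ne_zero hσ (inv_ne_zero hs)) hd
        subst this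
        exact ⟨0, AddSubgroup.zero_mem _, by simp⟩
    have h2 := hg _ _ key
    have h3 : X (b + b) ∈ N v C X s (single (c + c) (1 : S)) := by
      apply RelP.le_of hmax v C X h2 hs
      rw [N_single hmax v C X hv hs]
      exact ⟨1, by simp, by simp⟩
    rw [N_single hmax v C X hv hs] at h3
    obtain ⟨d, -, hd⟩ := h3
    exact hbin (b + b) (c + c) d (fun h => hbc (hM b c h)) hd

end abstract_part

section bend_part

variable {S : Type u2} [Semifield S] [LinearOrder S] (hmax : ∀ a b : S, a + b = max a b)
variable {K : Type u1} [Field K] (v : K →*₀ S) (hv : ∀ a b, v (a + b) ≤ v a + v b)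
variable {M : Type u3} [AddCommMonoid M] (I : Ideal (AddMonoidAlgebra K M))

/-- scalars in the quotient -/
noncomputable def CI : K →+* (AddMonoidAlgebra K M ⧸ I) :=
  (Ideal.Quotient.mk I).comp AddMonoidAlgebra.singleZeroRingHom

/-- monomials in the quotient -/
noncomputable def XI (u : M) : AddMonoidAlgebra K M ⧸ I := Ideal.Quotient.mk I (single u 1)

lemma mk_single (u : M) (c : K) : Ideal.Quotient.mk I (single u c) = CI I c * XI I u := by
  unfold CI XI
  rw [RingHom.comp_apply, ← map_mul]
  congr 1
  change _ = single 0 c * single u 1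
  rw [single_mul_single, zero_add, mul_one]

lemma XI_zero : XI I (0 : M) = 1 := by
  unfold XI
  rw [← AddMonoidAlgebra.one_def, map_one]

lemma XI_add (a b : M) : XI I (a + b) = XI I a * XI I b := by
  unfold XI
  rw [← map_mul, single_mul_single, one_mul]

include hmax hv in
lemma mem_N_exists {σ : S} {g : AddMonoidAlgebra S M} {x : AddMonoidAlgebra K M ⧸ I}
    (hx : x ∈ N v (CI I) (XI I) σ g) :
    ∃ F : AddMonoidAlgebra K M, Ideal.Quotient.mk I F = x ∧
      ∀ u, σ * v (F.coeff u) ≤ g.coeff u := by
  classical
  unfold N at hx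
  induction hx using AddSubgroup.closure_induction with
  | mem x hx =>
    obtain ⟨u, c, hc, rfl⟩ := hx
    refine ⟨single u c, mk_single I u c, fun w => ?_⟩
    rw [coeff_single, Finsupp.single_apply]
    split_ifs with h
    · subst h; exact hc
    · simp [S_zero_le hmax]
  | zero => exact ⟨0, by simp, fun u => by simp [S_zero_le hmax]⟩
  | add x y _ _ hx hy =>
    obtain ⟨F, rfl, hF⟩ := hx
    obtain ⟨F', rfl, hF'⟩ := hy
    refine ⟨F + F', map_add _ _ _, fun u => ?_⟩
    rw [coeff_add, Finsupp.add_apply]
    have h1 := hv (F.coeff u) (F'.coeff u)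
    rw [hmax] at h1
    refine (S_mul_le hmax σ h1).trans ?_
    rcases le_total (v (F.coeff u)) (v (F'.coeff u)) with h2 | h2
    · rw [max_eq_right h2]; exact hF' u
    · rw [max_eq_left h2]; exact hF u
  | neg x _ hx =>
    obtain ⟨F, rfl, hF⟩ := hx
    refine ⟨-F, map_neg _ _, fun u => ?_⟩
    rw [coeff_neg, Finsupp.neg_apply, v_neg hmax]
    exact hF u

lemma mem_N_of {σ : S} {g : AddMonoidAlgebra S M} (F : AddMonoidAlgebra K M)
    (hF : ∀ u, F.coeff u ≠ 0 → σ * v (F.coeff u) ≤ g.coeff u) :
    Ideal.Quotient.mk I F ∈ N v (CI I) (XI I) σ g := by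
  rw [← sum_coeff_single F, Finsupp.sum, map_sum]
  apply AddSubgroup.sum_mem
  intro u hu
  rw [mk_single]
  exact N_gen v _ _ (hF u (Finsupp.mem_support_iff.1 hu))

lemma trop_coeff (F : AddMonoidAlgebra K M) (u : M) : (trop v F).coeff u = v (F.coeff u) := by
  unfold trop
  rw [coeff_ofCoeff, Finsupp.mapRange_apply]

include hmax in
lemma rel_of_bend {a b : AddMonoidAlgebra S M}
    (h : BendRel (trop v '' (I : Set (AddMonoidAlgebra K M))) a b) :
    RelP v (CI I) (XI I) a b := by
  classical
  obtain ⟨_, ⟨F, hF, rfl⟩, u₀, hu₀, rfl, rfl⟩ := h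
  have h1 : RelP v (CI I) (XI I) ((trop v F).erase u₀ + single u₀ ((trop v F).coeff u₀))
      ((trop v F).erase u₀) := by
    apply RelP.of_le hmax
    intro σ hσ
    apply N_le
    intro u c hc
    by_cases huu : u = u₀
    · subst huu
      have hf : F.coeff u ≠ 0 := by
        have := Finsupp.mem_support_iff.1 hu₀
        rw [trop_coeff] at this
        exact fun h => this (by rw [h, map_zero])
      have hvf : v (F.coeff u) ≠ 0 := by rwa [Ne, map_eq_zero]
      rw [coeff_single, Finsupp.single_eq_same, trop_coeff] at hc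
      have e : CI I c * XI I u =
          Ideal.Quotient.mk I (-(single 0 (c / F.coeff u) * F.erase u)) := by
        rw [← mk_single, Ideal.Quotient.eq]
        have : single u c - -(single 0 (c / F.coeff u) * F.erase u) =
            single 0 (c / F.coeff u) * F := by
          have e3 : single 0 (c / F.coeff u) * F = single 0 (c / F.coeff u) *
              (F.erase u + single u (F.coeff u)) := by rw [erase_add_single]
          rw [e3, mul_add, single_mul_single, zero_add, div_mul_cancel₀ _ hf]
          abel
        rw [this]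
        exact I.mul_mem_left _ hF
      rw [e]
      apply mem_N_of
      intro w hw
      rw [coeff_neg, Finsupp.neg_apply, v_neg hmax, coeff_single_zero_mul, coeff_erase] at *
      by_cases hwu : w = u
      · subst hwu; simp at hw
      · rw [coeff_erase, Finsupp.erase_ne hwu, Finsupp.erase_ne hwu, map_mul, trop_coeff]
        rw [← S_mul_le_iff hmax hvf]
        calc v (F.coeff u) * (σ * (v (c / F.coeff u) * v (F.coeff w)))
            = (σ * v c) * v (F.coeff w) := by
              rw [map_div₀]; field_simp
          _ ≤ v (F.coeff u) * v (F.coeff w) := S_mul_le_mul hmax hc le_rfl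
    · rw [coeff_single, Finsupp.single_eq_of_ne (by first | exact huu | exact Ne.symm huu)] at hc
      have : c = 0 := v_zero_of_le hmax v hσ hc
      subst this
      simp
  rwa [erase_add_single] at h1

include hmax hv in
lemma bend_of_mem {s : S} {m : M} {g : AddMonoidAlgebra S M}
    (h : XI I m ∈ N v (CI I) (XI I) s g) :
    Bend (trop v '' (I : Set (AddMonoidAlgebra K M))) (g + single m s) g := by
  classical
  obtain ⟨F', hF', hb⟩ := mem_N_exists hmax v hv I h
  by_cases hsm : s ≤ g.coeff m
  · have : g + single m s = g := by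
      ext u
      rw [coeff_add, Finsupp.add_apply, hmax, coeff_single, Finsupp.single_apply]
      split_ifs with hmu
      · subst hmu; exact max_eq_left hsm
      · exact max_eq_left (S_zero_le hmax _)
    rw [this]
    exact RingCon.refl _ _
  · push Not at hsm
    set F : AddMonoidAlgebra K M := single m 1 - F' with hF
    have hFI : F ∈ I := by
      rw [← Ideal.Quotient.eq_zero_iff_mem, hF, map_sub, hF']
      exact sub_self _
    have hFm : ∀ u, u ≠ m → F.coeff u = - F'.coeff u := by
      intro u hu
      rw [hF, coeff_sub, Finsupp.sub_apply, coeff_single,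
        Finsupp.single_eq_of_ne (by first | exact hu | exact hu.symm), zero_sub]
    have hFm' : F.coeff m + F'.coeff m = 1 := by
      rw [hF, coeff_sub, Finsupp.sub_apply, coeff_single, Finsupp.single_eq_same, sub_add_cancel]
    have hvF' : v (F'.coeff m) < 1 := by
      by_contra hcon
      push Not at hcon
      have h1 := S_mul_le hmax s hcon
      rw [mul_one] at h1
      exact absurd (h1.trans (hb m)) (not_le.2 hsm)
    have hvF : 1 ≤ v (F.coeff m) := by
      have h1 := hv (F.coeff m) (F'.coeff m)
      rw [hFm', map_one, hmax] at h1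
      rcases le_max_iff.1 h1 with h2 | h2
      · exact h2
      · exact absurd h2 (not_le.2 hvF')
    have hsupp : m ∈ (trop v F).coeff.support := by
      rw [Finsupp.mem_support_iff, trop_coeff]
      intro h0
      rw [h0] at hvF
      have := S_eq_zero_of_le hmax hvF
      exact one_ne_zero this
    have hb1 : Bend (trop v '' (I : Set (AddMonoidAlgebra K M))) (trop v F)
        ((trop v F).erase m) :=
      RingConGen.Rel.of _ _ ⟨trop v F, ⟨F, hFI, rfl⟩, m, hsupp, rfl, rfl⟩
    have hb2 := (Bend (trop v '' (I : Set (AddMonoidAlgebra K M)))).add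
      ((Bend (trop v '' (I : Set (AddMonoidAlgebra K M)))).mul
        (RingCon.refl _ (single 0 s)) hb1) (RingCon.refl _ g)
    have e1 : single 0 s * (trop v F).erase m + g = g := by
      ext u
      rw [coeff_add, Finsupp.add_apply, coeff_single_zero_mul, hmax, coeff_erase]
      by_cases hu : u = m
      · subst hu
        rw [Finsupp.erase_same, mul_zero]
        exact max_eq_right (S_zero_le hmax _)
      · rw [Finsupp.erase_ne hu, trop_coeff, hFm u hu, v_neg hmax]
        exact max_eq_right (hb u)
    have e2 : single 0 s * trop v F + g + single m s = single 0 s * trop v F + g := by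
      ext u
      rw [coeff_add, Finsupp.add_apply, hmax (_) ((single m s).coeff u), coeff_single,
        Finsupp.single_apply]
      split_ifs with hmu
      · subst hmu
        rw [coeff_add, Finsupp.add_apply, coeff_single_zero_mul, hmax, trop_coeff]
        apply max_eq_left
        apply le_max_of_le_left
        have := S_mul_le hmax s hvF
        rwa [mul_one] at this
      · exact max_eq_left (S_zero_le hmax _)
    rw [e1] at hb2
    have hb3 := (Bend (trop v '' (I : Set (AddMonoidAlgebra K M)))).add hb2
      (RingCon.refl _ (single m s))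
    rw [e2] at hb3
    exact hb3.symm.trans hb2

include hmax hv in
lemma bend_of_le {g h : AddMonoidAlgebra S M}
    (H : ∀ m, h.coeff m ≠ 0 → XI I m ∈ N v (CI I) (XI I) (h.coeff m) g) :
    Bend (trop v '' (I : Set (AddMonoidAlgebra K M))) (g + h) g := by
  classical
  have key : ∀ T : Finset M, T ⊆ h.coeff.support →
      Bend (trop v '' (I : Set (AddMonoidAlgebra K M)))
        (g + ∑ m ∈ T, single m (h.coeff m)) g := by
    intro T
    induction T using Finset.induction_on with
    | empty => intro _; rw [Finset.sum_empty, add_zero]; exact RingCon.refl _ _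
    | insert a T ha ih =>
      intro hT
      have h1 := ih (fun i hi => hT (Finset.mem_insert_of_mem hi))
      have h2 : h.coeff a ≠ 0 := Finsupp.mem_support_iff.1 (hT (Finset.mem_insert_self _ _))
      have h3 := bend_of_mem hmax v hv I (H a h2)
      rw [Finset.sum_insert ha, add_comm (single a _), ← add_assoc]
      exact ((Bend (trop v '' (I : Set (AddMonoidAlgebra K M)))).add h1
        (RingCon.refl _ _)).trans h3
  have h1 := key h.coeff.support (Finset.Subset.refl _)
  have h2 : ∑ m ∈ h.coeff.support, single m (h.coeff m) = h := sum_coeff_single h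
  rwa [h2] at h1

include hmax hv in
lemma bend_of_relP {g h : AddMonoidAlgebra S M} (H : RelP v (CI I) (XI I) g h) :
    Bend (trop v '' (I : Set (AddMonoidAlgebra K M))) g h := by
  have gen : ∀ (k : AddMonoidAlgebra S M) (m : M),
      XI I m ∈ N v (CI I) (XI I) (k.coeff m) k := by
    intro k m
    have := N_gen v (CI I) (XI I) (σ := k.coeff m) (g := k) (u := m) (c := 1) (by simp)
    simpa using this
  have h1 : Bend (trop v '' (I : Set (AddMonoidAlgebra K M))) (g + h) g := by
    apply bend_of_le hmax v hv I
    intro m hm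
    rw [H _ hm]
    exact gen h m
  have h2 : Bend (trop v '' (I : Set (AddMonoidAlgebra K M))) (h + g) h := by
    apply bend_of_le hmax v hv I
    intro m hm
    rw [← H _ hm]
    exact gen g m
  rw [add_comm h g] at h2
  exact h1.symm.trans h2

/-- The congruence of all `RelP`-related pairs. -/
def relCon : RingCon (AddMonoidAlgebra S M) where
  r g h := RelP v (CI I) (XI I) g h
  iseqv := ⟨RelP.rfl' v _ _, RelP.symm, RelP.trans⟩
  add' := fun h1 h2 => RelP.add hmax v _ _ h1 h2
  mul' := fun h1 h2 => RelP.mul hmax v _ _ hv (XI_add I) h1 h2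

include hmax hv in
lemma bend_iff_relP (g h : AddMonoidAlgebra S M) :
    Bend (trop v '' (I : Set (AddMonoidAlgebra K M))) g h ↔ RelP v (CI I) (XI I) g h := by
  refine ⟨fun H => ?_, bend_of_relP hmax v hv I⟩
  have : Bend (trop v '' (I : Set (AddMonoidAlgebra K M))) ≤ relCon hmax v hv I := by
    unfold Bend
    rw [RingCon.ringConGen_le]
    intro a b hab
    exact rel_of_bend hmax v I hab
  exact this H

end bend_part

/-- **Full answer to Q1.**  `S` is a semifield with a linear order for which addition is `max`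
(for instance any sub-semifield of the tropical semifield), `v : K → S` a valuation of the field
`K` in the max convention, `M` any submonoid of a lattice `ℤⁿ` (for instance a toric monoid) and
`I` any prime ideal of `K[M]` containing neither a monomial nor a binomial (principal or not).
Then the cancellative elements of `S[M]/Bend(trop I)` are exactly the classes of terms. -/
theorem result {S : Type u2} [Semifield S] [LinearOrder S] (hmax : ∀ a b : S, a + b = max a b)
    {K : Type u1} [Field K] (v : K →*₀ S) (hv : ∀ a b : K, v (a + b) ≤ v a + v b)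
    {n : ℕ} (M : AddSubmonoid (Fin n → ℤ)) (I : Ideal (AddMonoidAlgebra K M)) (hI : I.IsPrime)
    (hmono : NoMonomial I) (hbin : NoBinomial I) (x : TropQuotient v I) :
    IsCancellative x ↔ IsTermClass v I x := by
  have hdom : IsDomain (AddMonoidAlgebra K M ⧸ I) := Ideal.Quotient.isDomain I
  have hXne : ∀ u : M, XI I u ≠ 0 := by
    intro u h
    exact hmono 1 u one_ne_zero (Ideal.Quotient.eq_zero_iff_mem.1 h)
  have hM : ∀ a b : M, a + a = b + b → a = b := by
    intro a b h
    apply Subtype.ext
    funext i
    have := congrFun (congrArg Subtype.val h) i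
    simp only [AddSubmonoid.coe_add, Pi.add_apply] at this
    omega
  have hbin' : ∀ (u u' : M) (c : K), u ≠ u' → XI I u ≠ CI I c * XI I u' := by
    intro u u' c huu h
    by_cases hc : c = 0
    · subst hc
      rw [map_zero, zero_mul] at h
      exact hXne u h
    · apply hbin 1 (-c) u u' one_ne_zero (neg_ne_zero.2 hc) huu
      rw [← Ideal.Quotient.eq_zero_iff_mem, map_add, mk_single, mk_single, map_neg, map_one,
        one_mul, h]
      ring
  have hmk : ∀ a b : AddMonoidAlgebra S M,
      TropQuotient.mk v I a = TropQuotient.mk v I b ↔ RelP v (CI I) (XI I) a b := by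
    intro a b
    rw [← bend_iff_relP hmax v hv]
    exact RingCon.eq _
  have hmul : ∀ a b : AddMonoidAlgebra S M,
      TropQuotient.mk v I a * TropQuotient.mk v I b = TropQuotient.mk v I (a * b) := by
    intro a b
    rfl
  have hrep : ∀ y : TropQuotient v I, ∃ a, TropQuotient.mk v I a = y :=
    fun y => Quotient.exists_rep y
  obtain ⟨g0, rfl⟩ := hrep x
  have hcanc : IsCancellative (TropQuotient.mk v I g0) ↔ Canc v (CI I) (XI I) g0 := by
    constructor
    · intro H a b hab
      rw [← hmk]
      apply H
      rw [hmul, hmul, hmk]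
      exact hab
    · intro H g h hgh
      obtain ⟨a, rfl⟩ := hrep g
      obtain ⟨b, rfl⟩ := hrep h
      rw [hmul, hmul, hmk] at hgh
      rw [hmk]
      exact H a b hgh
  rw [hcanc]
  constructor
  · intro H
    obtain ⟨u, a, ha, h⟩ := main_abs hmax v (CI I) (XI I) hv (XI_zero I) (XI_add I) hXne hM hbin' H
    exact ⟨u, a, ha, (hmk _ _).2 h⟩
  · rintro ⟨u, a, ha, h⟩
    rw [hmk] at h
    exact Canc.congr hmax v _ _ hv (XI_add I) h.symm
      (canc_single hmax v _ _ hv (XI_add I) hXne u ha)

end Pool.Agent.Results.MP_58a9d8_ag.CancellativeIffTerm
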